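import Mathlib

set_option autoImplicit false

/-!
Generalized polymatroids (problem MP_8bd56d_co).
-/

open Finset

namespace Pool.Agent.GPM

/-- `(p, b)` is a paired pair of integer valued set functions: `p` is supermodular, `b` is
submodular, `p ∅ = b ∅ = 0`, and `b X - p Y ≥ b (X \ Y) - p (Y \ X)`. -/
structure Paired {n : ℕ} (p b : Finset (Fin n) → ℤ) : Prop where
  p_empty : p ∅ = 0
  b_empty : b ∅ = 0
  super : ∀ X Y, p X + p Y ≤ p (X ∩ Y) + p (X ∪ Y)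
  sub : ∀ X Y, b (X ∩ Y) + b (X ∪ Y) ≤ b X + b Y
  pair : ∀ X Y, b (X \ Y) - p (Y \ X) ≤ b X - p Y

/-- the g-polymatroid `Q(p, b)` -/
def Q {n : ℕ} (p b : Finset (Fin n) → ℤ) : Set (Fin n → ℝ) :=
  {x | ∀ A : Finset (Fin n), (p A : ℝ) ≤ ∑ i ∈ A, x i ∧ ∑ i ∈ A, x i ≤ (b A : ℝ)}

/-- the number of zero coordinates -/
noncomputable def zeros {n : ℕ} (x : Fin n → ℝ) : ℕ := {i | x i = 0}.ncard

end Pool.Agent.GPM
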