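import Pool.Agent.GPM.Sand

set_option autoImplicit false

/-!
Submodular functions with a constant number of odd increments on all maximal chains.
-/

open Finset

namespace Pool.Agent.GPM

variable {α : Type*} [DecidableEq α]

/-- submodular functions -/
def Sub (f : Finset α → ℤ) : Prop := ∀ X Y, f (X ∩ Y) + f (X ∪ Y) ≤ f X + f Y

/-- the number of odd increments of `f` along the chain `A, A + l₁, A + l₁ + l₂, ...` -/
def cnt (f : Finset α → ℤ) : Finset α → List α → ℤ
  | _, [] => 0
  | A, a :: l => (f (insert a A) - f A) % 2 + cnt f (insert a A) l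

theorem cnt_append (f : Finset α → ℤ) (l l' : List α) : ∀ A : Finset α,
    cnt f A (l ++ l') = cnt f A l + cnt f (A ∪ l.toFinset) l' := by
  induction l with
  | nil => intro A; simp [cnt]
  | cons a l ih =>
    intro A
    rw [List.cons_append, cnt, cnt, ih, List.toFinset_cons, insert_union, union_insert]
    ring

theorem Sub.dr {f : Finset α → ℤ} (hf : Sub f) {A B : Finset α} {a : α} (hAB : A ⊆ B)
    (ha : a ∉ B) : f (insert a B) - f B ≤ f (insert a A) - f A := by
  have h := hf (insert a A) B
  rw [insert_inter_of_notMem ha, inter_eq_left.2 hAB, insert_union, union_eq_right.2 hAB] at h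
  linarith

/-- diminishing returns imply submodularity -/
theorem sub_of_dr {r : Finset α → ℤ} (h : ∀ A B : Finset α, ∀ a, A ⊆ B → a ∉ B →
    r (insert a B) - r B ≤ r (insert a A) - r A) : Sub r := by
  have key : ∀ D A B : Finset α, A ⊆ B → Disjoint B D → r (B ∪ D) - r B ≤ r (A ∪ D) - r A := by
    intro D
    induction D using Finset.induction_on with
    | empty => intro A B _ _; simp
    | insert d D hd ih =>
      intro A B hAB hdis
      rw [disjoint_insert_right] at hdis
      have h1 := ih A B hAB hdis.2
      have h2 := h (A ∪ D) (B ∪ D) d (union_subset_union hAB subset_rfl)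
        (by rw [mem_union, not_or]; exact ⟨hdis.1, hd⟩)
      rw [union_insert, union_insert]
      linarith
  intro X Y
  have h1 := key (Y \ X) (X ∩ Y) X inter_subset_left disjoint_sdiff
  rw [union_sdiff_self_eq_union] at h1
  have e : X ∩ Y ∪ Y \ X = Y := by
    ext x
    simp only [mem_union, mem_inter, mem_sdiff]
    tauto
  rw [e] at h1
  linarith

variable [Fintype α]

/-- every maximal chain has exactly `K` odd increments -/
def Const (f : Finset α → ℤ) (K : ℤ) : Prop :=
  ∀ l : List α, l.Nodup → (∀ a, a ∈ l) → cnt f ∅ l = K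

/-- the number of odd increments on the way to `A` -/
noncomputable def od (f : Finset α → ℤ) (A : Finset α) : ℤ := cnt f ∅ A.toList

theorem od_empty (f : Finset α → ℤ) : od f ∅ = 0 := by simp [od, cnt]

theorem od_univ {f : Finset α → ℤ} {K : ℤ} (h : Const f K) : od f univ = K :=
  h _ (nodup_toList _) (fun a => by simp)

theorem od_insert {f : Finset α → ℤ} {K : ℤ} (h : Const f K) {A : Finset α} {a : α}
    (ha : a ∉ A) : od f (insert a A) = od f A + (f (insert a A) - f A) % 2 := by
  have h1 := h ((insert a A).toList ++ (univ \ insert a A).toList)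
    (by
      rw [List.nodup_append]
      refine ⟨nodup_toList _, nodup_toList _, ?_⟩
      intro x hx y hy hxy
      subst hxy
      rw [mem_toList] at hx hy
      exact (mem_sdiff.1 hy).2 hx)
    (fun x => by
      rw [List.mem_append, mem_toList, mem_toList]
      by_cases hx : x ∈ insert a A
      · exact Or.inl hx
      · exact Or.inr (mem_sdiff.2 ⟨mem_univ _, hx⟩))
  have h2 := h (A.toList ++ (a :: (univ \ insert a A).toList))
    (by
      rw [List.nodup_append]
      refine ⟨nodup_toList _, ?_, ?_⟩
      · rw [List.nodup_cons]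
        refine ⟨?_, nodup_toList _⟩
        rw [mem_toList, mem_sdiff]
        intro hx
        exact hx.2 (mem_insert_self a A)
      · intro x hx y hy hxy
        subst hxy
        rw [mem_toList] at hx
        rw [List.mem_cons, mem_toList, mem_sdiff] at hy
        rcases hy with hy | hy
        · subst hy; exact ha hx
        · exact hy.2 (mem_insert_of_mem hx))
    (fun x => by
      rw [List.mem_append, List.mem_cons, mem_toList, mem_toList]
      by_cases hx : x ∈ insert a A
      · rcases mem_insert.1 hx with hx | hx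
        · exact Or.inr (Or.inl hx)
        · exact Or.inl hx
      · exact Or.inr (Or.inr (mem_sdiff.2 ⟨mem_univ _, hx⟩)))
  rw [cnt_append, toList_toFinset, empty_union] at h1 h2
  rw [cnt] at h2
  unfold od
  linarith

/-- the decomposition -/
theorem decomp {f : Finset α → ℤ} {K : ℤ} (hf : Sub f) (hf0 : f ∅ = 0) (h : Const f K) :
    ∃ r₁ r₂ : Finset α → ℤ, r₁ ∅ = 0 ∧ r₂ ∅ = 0 ∧ Sub r₁ ∧ Sub r₂ ∧ (∀ A, r₁ A + r₂ A = f A) ∧
      r₁ univ - r₂ univ = K ∧
      (∀ A a, a ∉ A → r₁ (insert a A) - r₁ A = (f (insert a A) - f A + 1) / 2) ∧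
      (∀ A a, a ∉ A → r₂ (insert a A) - r₂ A = (f (insert a A) - f A) / 2) := by
  have hpar : ∀ A : Finset α, ∃ r : ℤ, 2 * r = f A - od f A := by
    intro A
    induction A using Finset.induction_on with
    | empty => exact ⟨0, by rw [hf0, od_empty]; simp⟩
    | insert a A ha ih =>
      obtain ⟨r, hr⟩ := ih
      refine ⟨r + (f (insert a A) - f A) / 2, ?_⟩
      rw [od_insert h ha]
      have := Int.mul_ediv_add_emod (f (insert a A) - f A) 2
      linarith
  choose r hr using hpar
  have i2 : ∀ A a, a ∉ A → r (insert a A) - r A = (f (insert a A) - f A) / 2 := by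
    intro A a ha
    have h1 := hr (insert a A)
    have h2 := hr A
    rw [od_insert h ha] at h1
    omega
  have i1 : ∀ A a, a ∉ A → (r (insert a A) + od f (insert a A)) - (r A + od f A) =
      (f (insert a A) - f A + 1) / 2 := by
    intro A a ha
    have h1 := i2 A a ha
    rw [od_insert h ha]
    omega
  refine ⟨fun A => r A + od f A, r, ?_, ?_, ?_, ?_, ?_, ?_, i1, i2⟩
  · have := hr ∅
    rw [hf0, od_empty] at this
    simp only [od_empty]
    omega
  · have := hr ∅
    rw [hf0, od_empty] at this
    omega
  · apply sub_of_dr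
    intro A B a hAB ha
    have h1 := hf.dr hAB ha
    have h2 := i1 A a (fun h => ha (hAB h))
    have h3 := i1 B a ha
    omega
  · apply sub_of_dr
    intro A B a hAB ha
    have h1 := hf.dr hAB ha
    have h2 := i2 A a (fun h => ha (hAB h))
    have h3 := i2 B a ha
    omega
  · intro A
    have := hr A
    simp only
    linarith
  · simp only
    rw [od_univ h]
    ring

/-- The symmetric integer points. -/
theorem core {f : Finset α → ℤ} {K : ℤ} (hf : Sub f) (hf0 : f ∅ = 0) (h : Const f K)
    (m : α → ℤ) (hm : ∀ A, ∑ i ∈ A, m i ≤ f A) (hmu : ∑ i, m i = f univ)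
    (S₀ : Finset α) (hS : ∀ i ∈ S₀, ∀ A, i ∉ A → 0 ≤ f (insert i A) - f A ∧
      f (insert i A) - f A ≤ 2) :
    ∃ x Y : α → ℤ, (∀ i, 0 ≤ Y i) ∧ ∑ i, Y i = K ∧
      (∀ i ∈ S₀, (x i = 0 ∧ Y i = 0) ∨ (x i = 1 ∧ (Y i = 0 ∨ Y i = 1))) ∧
      (∀ A, ∑ i ∈ A, (2 * x i - Y i) ≤ f A) ∧ ∑ i, (2 * x i - Y i) = f univ ∧
      (∀ A, ∑ i ∈ A, (2 * m i - (2 * x i - Y i)) ≤ f A) := by
  obtain ⟨r₁, r₂, h10, h20, hs1, hs2, hsum, hK, i1, i2⟩ := decomp hf hf0 h
  -- step (i)
  obtain ⟨x, hx, -⟩ := sandwich (∅ : Finset α) univ (fun A => ∑ i ∈ A, m i - r₂ A) r₁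
    (by simp [h20]) h10
    (by
      intro X _ Y _
      have k1 := hs2 X Y
      have k2 := sum_union_inter (s₁ := X) (s₂ := Y) (f := m)
      simp only
      linarith)
    (fun X _ Y _ => hs1 X Y)
    (by
      intro T _ A hAT hTA
      have : A = T := by
        apply subset_antisymm hAT
        rw [subset_empty, sdiff_eq_empty_iff_subset] at hTA
        exact hTA
      subst this
      have k1 := hm A
      have k2 := hsum A
      linarith)
  have hx1 : ∀ A, ∑ i ∈ A, x i ≤ r₁ A := fun A => (hx A (subset_univ _)).2
  have hx2 : ∀ A, ∑ i ∈ A, m i - ∑ i ∈ A, x i ≤ r₂ A := fun A => by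
    linarith [(hx A (subset_univ _)).1]
  have hxu : ∑ i, x i = r₁ univ := by
    have := hx1 univ
    have := hx2 univ
    have := hsum univ
    linarith
  -- monotonicity of the difference
  have hmono : ∀ A T, A ⊆ T → r₁ A - r₂ A ≤ r₁ T - r₂ T := by
    intro A T hAT
    have key : ∀ D : Finset α, Disjoint A D → r₁ A - r₂ A ≤ r₁ (A ∪ D) - r₂ (A ∪ D) := by
      intro D
      induction D using Finset.induction_on with
      | empty => intro _; simp
      | insert d D hd ih =>
        intro hdis
        rw [disjoint_insert_right] at hdis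
        have h1 := ih hdis.2
        have hd' : d ∉ A ∪ D := by rw [mem_union, not_or]; exact ⟨hdis.1, hd⟩
        have h2 := i1 (A ∪ D) d hd'
        have h3 := i2 (A ∪ D) d hd'
        rw [union_insert]
        omega
    have h1 := key (T \ A) disjoint_sdiff
    rwa [union_sdiff_of_subset hAT] at h1
  -- step (ii)
  obtain ⟨Y, hY, hY0⟩ := sandwich (univ : Finset α) univ (fun A => ∑ i ∈ A, x i - r₂ A)
    (fun A => r₁ A - (∑ i ∈ A, m i - ∑ i ∈ A, x i))
    (by simp [h20]) (by simp [h10])
    (by
      intro X _ Y _
      have k1 := hs2 X Y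
      have k2 := sum_union_inter (s₁ := X) (s₂ := Y) (f := x)
      simp only
      linarith)
    (by
      intro X _ Y _
      have k1 := hs1 X Y
      have k2 := sum_union_inter (s₁ := X) (s₂ := Y) (f := x)
      have k3 := sum_union_inter (s₁ := X) (s₂ := Y) (f := m)
      simp only
      linarith)
    (by
      intro T _ A hAT _
      have k1 := hmono A T hAT
      have k2 := hx1 A
      have k3 := hx2 T
      linarith)
  have hYx : ∀ A, ∑ i ∈ A, x i - ∑ i ∈ A, Y i ≤ r₂ A := fun A => by
    have := (hY A (subset_univ _)).1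
    linarith
  have hYy : ∀ A, ∑ i ∈ A, m i - ∑ i ∈ A, x i + ∑ i ∈ A, Y i ≤ r₁ A := fun A => by
    have := (hY A (subset_univ _)).2
    linarith
  have hYu : ∑ i, Y i = K := by
    have k1 := hYx univ
    have k2 := hYy univ
    have k3 := hsum univ
    linarith
  refine ⟨x, Y, fun i => hY0 i (mem_univ _) (mem_univ _), hYu, ?_, ?_, ?_, ?_⟩
  · intro i hi
    have a1 := hS i hi (univ.erase i) (notMem_erase i _)
    have a2 := i1 (univ.erase i) i (notMem_erase i _)
    have a3 := i2 (univ.erase i) i (notMem_erase i _)
    have a4 := hx1 (univ.erase i)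
    have a5 := hYx (univ.erase i)
    have a6 := sum_erase_add univ x (mem_univ i)
    have a7 := sum_erase_add univ Y (mem_univ i)
    rw [insert_erase (mem_univ i)] at a1 a2 a3
    have b1 := hS i hi ∅ (notMem_empty i)
    have b2 := i1 ∅ i (notMem_empty i)
    have b4 := hx1 {i}
    rw [sum_singleton] at b4
    rw [insert_empty_eq] at b1 b2
    have b5 := hY0 i (mem_univ _) (mem_univ _)
    -- `x i ≤ 1`, `0 ≤ x i - Y i`
    have c1 : x i ≤ 1 := by omega
    have c2 : 0 ≤ x i - Y i := by
      have : ∑ i, x i - ∑ i, Y i = r₂ univ := by linarith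
      omega
    omega
  · intro A
    have k1 := hx1 A
    have k2 := hYx A
    have k3 := hsum A
    rw [sum_sub_distrib, ← mul_sum]
    linarith
  · rw [sum_sub_distrib, ← mul_sum, hxu, hYu]
    have k3 := hsum univ
    linarith
  · intro A
    have k1 := hx2 A
    have k2 := hYy A
    have k3 := hsum A
    rw [sum_sub_distrib, sum_sub_distrib, ← mul_sum, ← mul_sum]
    linarith

/-- the greedy algorithm -/
theorem greedy {f : Finset α → ℤ} (hf : Sub f) (hf0 : f ∅ = 0) (l : List α) : l.Nodup →
    ∃ v : α → ℤ, (∀ W, W ⊆ l.toFinset → ∑ i ∈ W, v i ≤ f W) ∧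
      (∀ l', l' <+: l → ∑ i ∈ l'.toFinset, v i = f l'.toFinset) ∧
      cnt f ∅ l = ∑ i ∈ l.toFinset, v i % 2 := by
  induction l using List.reverseRecOn with
  | nil =>
    intro _
    refine ⟨fun _ => 0, ?_, ?_, ?_⟩
    · intro W hW
      simp only [List.toFinset_nil, subset_empty] at hW
      subst hW
      simp [hf0]
    · intro l' hl'
      rw [List.prefix_nil] at hl'
      subst hl'
      simp [hf0]
    · simp [cnt]
  | append_singleton l a ih =>
    intro hnd
    have hnd' : l.Nodup := (List.nodup_append.1 hnd).1
    have hal : a ∉ l := by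
      intro h
      exact (List.nodup_append.1 hnd).2.2 a h a (by simp) rfl
    have haF : a ∉ l.toFinset := by simpa using hal
    obtain ⟨v, h1, h2, h3⟩ := ih hnd'
    have hF : (l ++ [a]).toFinset = insert a l.toFinset := by
      ext x; simp
    refine ⟨Function.update v a (f (insert a l.toFinset) - f l.toFinset), ?_, ?_, ?_⟩
    · intro W hW
      rw [hF] at hW
      by_cases haW : a ∈ W
      · have hW' : W.erase a ⊆ l.toFinset := fun y hy =>
          (mem_insert.1 (hW (mem_of_mem_erase hy))).resolve_left (ne_of_mem_erase hy)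
        rw [← insert_erase haW, sum_insert (notMem_erase a W), Function.update_self,
          sum_congr rfl (fun i hi => Function.update_of_ne (ne_of_mem_erase hi) _ _),
          insert_erase haW]
        have k1 := h1 _ hW'
        have k2 := hf W l.toFinset
        have e1 : W ∩ l.toFinset = W.erase a := by
          ext x
          simp only [mem_inter, mem_erase]
          constructor
          · rintro ⟨hx1, hx2⟩
            exact ⟨fun h => haF (h ▸ hx2), hx1⟩
          · rintro ⟨hx1, hx2⟩
            exact ⟨hx2, hW' (mem_erase.2 ⟨hx1, hx2⟩)⟩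
        have e2 : W ∪ l.toFinset = insert a l.toFinset := by
          apply subset_antisymm (union_subset hW (subset_insert _ _))
          exact insert_subset (mem_union_left _ haW) subset_union_right
        rw [e1, e2] at k2
        linarith
      · have hW' : W ⊆ l.toFinset := fun y hy =>
          (mem_insert.1 (hW hy)).resolve_left (fun h => haW (h ▸ hy))
        rw [sum_congr rfl (fun i (hi : i ∈ W) =>
          Function.update_of_ne (fun (h : i = a) => haW (h ▸ hi)) _ _)]
        exact h1 W hW'
    · intro l' hl'
      rw [List.prefix_concat_iff] at hl'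
      rcases hl' with rfl | hl'
      · rw [hF, sum_insert haF, Function.update_self,
          sum_congr rfl (fun i (hi : i ∈ l.toFinset) =>
          Function.update_of_ne (fun (h : i = a) => haF (h ▸ hi)) _ _), h2 l (List.prefix_refl l)]
        ring
      · have hsub : l'.toFinset ⊆ l.toFinset := by
          intro x hx
          rw [List.mem_toFinset] at hx ⊢
          exact hl'.subset hx
        rw [sum_congr rfl (fun i (hi : i ∈ l'.toFinset) =>
          Function.update_of_ne (fun (h : i = a) => haF (h ▸ hsub hi)) _ _)]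
        exact h2 l' hl'
    · rw [cnt_append, empty_union, cnt, cnt, hF, sum_insert haF, Function.update_self,
        sum_congr rfl (fun i (hi : i ∈ l.toFinset) => by
          rw [Function.update_of_ne (fun (h : i = a) => haF (h ▸ hi))]), h3]
      ring

/-- two vectors with the same prefix sums agree -/
theorem eq_of_prefix {β : Type*} [AddCommGroup β] (x y : α → β) (l : List α) : l.Nodup →
    (∀ l', l' <+: l → ∑ i ∈ l'.toFinset, x i = ∑ i ∈ l'.toFinset, y i) → ∀ i ∈ l, x i = y i := by
  induction l using List.reverseRecOn with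
  | nil => intro _ _ i hi; simp at hi
  | append_singleton l a ih =>
    intro hnd h i hi
    have hnd' : l.Nodup := (List.nodup_append.1 hnd).1
    have hal : a ∉ l := by
      intro h
      exact (List.nodup_append.1 hnd).2.2 a h a (by simp) rfl
    have haF : a ∉ l.toFinset := by simpa using hal
    have hF : (l ++ [a]).toFinset = insert a l.toFinset := by
      ext x; simp
    rw [List.mem_append, List.mem_singleton] at hi
    rcases hi with hi | rfl
    · exact ih hnd' (fun l' hl' => h l' (hl'.trans (List.prefix_append l [a]))) i hi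
    · have k1 := h (l ++ [i]) (List.prefix_refl _)
      have k2 := h l (List.prefix_append l [i])
      rw [hF, sum_insert haF, sum_insert haF, k2] at k1
      exact add_right_cancel k1

end Pool.Agent.GPM
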