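import Pool.Agent.GPM.Flag
import Pool.Agent.GPM.Defs

set_option autoImplicit false

/-!
From g-polymatroids to base polyhedra.
-/

open Finset

namespace Pool.Agent.GPM

variable {n : ℕ}

/-- the lifted and shifted submodular function -/
noncomputable def F (c : ℤ) (p b : Finset (Fin n) → ℤ) (W : Finset (Option (Fin n))) : ℤ :=
  open Classical in
  (if none ∈ W then c - p (eraseNone W)ᶜ else b (eraseNone W)) + (eraseNone W).card

theorem F_none {c : ℤ} {p b : Finset (Fin n) → ℤ} {W : Finset (Option (Fin n))}
    (h : none ∈ W) : F c p b W = c - p (eraseNone W)ᶜ + (eraseNone W).card := by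
  unfold F; rw [if_pos h]

theorem F_some {c : ℤ} {p b : Finset (Fin n) → ℤ} {W : Finset (Option (Fin n))}
    (h : none ∉ W) : F c p b W = b (eraseNone W) + (eraseNone W).card := by
  unfold F; rw [if_neg h]

theorem F_empty {c : ℤ} {p b : Finset (Fin n) → ℤ} (h : Paired p b) : F c p b ∅ = 0 := by
  rw [F_some (by simp)]
  have : eraseNone (∅ : Finset (Option (Fin n))) = ∅ := by simp
  rw [this, h.b_empty]; simp

theorem F_univ {c : ℤ} {p b : Finset (Fin n) → ℤ} (h : Paired p b) :
    F c p b univ = c + n := by
  rw [F_none (mem_univ _)]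
  have : eraseNone (univ : Finset (Option (Fin n))) = univ := by ext x; simp
  rw [this, compl_univ, h.p_empty]; simp

theorem F_sub {c : ℤ} {p b : Finset (Fin n) → ℤ} (h : Paired p b) : Sub (F c p b) := by
  intro X Y
  have hcard : ((eraseNone (X ∩ Y)).card : ℤ) + (eraseNone (X ∪ Y)).card =
      (eraseNone X).card + (eraseNone Y).card := by
    rw [eraseNone_inter, eraseNone_union]
    have := card_inter_add_card_union (eraseNone X) (eraseNone Y)
    exact_mod_cast this
  have mixed : ∀ X Y : Finset (Option (Fin n)), none ∉ X → none ∈ Y →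
      b (eraseNone (X ∩ Y)) + (c - p (eraseNone (X ∪ Y))ᶜ) ≤
        b (eraseNone X) + (c - p (eraseNone Y)ᶜ) := by
    intro X Y _ _
    have k := h.pair (eraseNone X) (eraseNone Y)ᶜ
    have e1 : eraseNone X \ (eraseNone Y)ᶜ = eraseNone (X ∩ Y) := by
      rw [eraseNone_inter]; ext x; simp
    have e2 : (eraseNone Y)ᶜ \ eraseNone X = (eraseNone (X ∪ Y))ᶜ := by
      rw [eraseNone_union]; ext x; simp [and_comm]
    rw [e1, e2] at k
    linarith
  by_cases hX : none ∈ X <;> by_cases hY : none ∈ Y
  · rw [F_none hX, F_none hY, F_none (mem_inter.2 ⟨hX, hY⟩), F_none (mem_union_left _ hX)]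
    have k := h.super (eraseNone X)ᶜ (eraseNone Y)ᶜ
    rw [← compl_union, ← compl_inter, ← eraseNone_union, ← eraseNone_inter] at k
    linarith
  · rw [F_none hX, F_some hY, F_some (fun h => hY (mem_inter.1 h).2),
      F_none (mem_union_left _ hX)]
    have k := mixed Y X hY hX
    rw [inter_comm Y X, union_comm Y X] at k
    linarith
  · rw [F_some hX, F_none hY, F_some (fun h => hX (mem_inter.1 h).1),
      F_none (mem_union_right _ hY)]
    have k := mixed X Y hX hY
    linarith
  · rw [F_some hX, F_some hY, F_some (fun h => hX (mem_inter.1 h).1), F_some (by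
      rw [mem_union, not_or]; exact ⟨hX, hY⟩)]
    have k := h.sub (eraseNone X) (eraseNone Y)
    rw [← eraseNone_union, ← eraseNone_inter] at k
    linarith

theorem sum_map_some {β : Type*} [AddCommMonoid β] (x : Option (Fin n) → β)
    (A : Finset (Fin n)) :
    ∑ i ∈ A.map Function.Embedding.some, x i = ∑ i ∈ A, x (some i) := by
  rw [sum_map]; rfl

/-- integer base vectors give points of `Q` -/
theorem mem_Q_of_base {c : ℤ} {p b : Finset (Fin n) → ℤ} (h : Paired p b)
    (x : Option (Fin n) → ℤ) (hx : ∀ W, ∑ i ∈ W, x i ≤ F c p b W)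
    (hu : ∑ i, x i = F c p b univ) : (fun i => ((x (some i) - 1 : ℤ) : ℝ)) ∈ Q p b := by
  intro A
  have h1 := hx (A.map Function.Embedding.some)
  rw [F_some (by simp), sum_map_some, eraseNone_map_some] at h1
  have h2 := hx (A.map Function.Embedding.some)ᶜ
  have e1 : eraseNone (A.map Function.Embedding.some)ᶜ = Aᶜ := by
    ext i; simp
  rw [F_none (by simp), e1, compl_compl] at h2
  have h3 := sum_add_sum_compl (A.map Function.Embedding.some) x
  rw [sum_map_some, hu, F_univ h] at h3
  have h4 : (A.card : ℤ) + (Aᶜ.card : ℤ) = n := by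
    have := card_add_card_compl A
    rw [Fintype.card_fin] at this
    exact_mod_cast this
  have h5 : ∑ i ∈ A, (x (some i) - 1) = ∑ i ∈ A, x (some i) - A.card := by
    rw [sum_sub_distrib]; simp
  rw [← Int.cast_sum, h5]
  constructor
  · exact_mod_cast (by linarith : p A ≤ ∑ i ∈ A, x (some i) - A.card)
  · exact_mod_cast (by linarith : ∑ i ∈ A, x (some i) - A.card ≤ b A)

/-- the lift of a point of `Q` -/
def lift (c : ℤ) (y : Fin n → ℝ) : Option (Fin n) → ℝ
  | none => c - ∑ i, y i
  | some i => y i + 1

theorem lift_none (c : ℤ) (y : Fin n → ℝ) : lift c y none = c - ∑ i, y i := rfl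

theorem lift_some (c : ℤ) (y : Fin n → ℝ) (i : Fin n) : lift c y (some i) = y i + 1 := rfl

theorem lift_univ (c : ℤ) (y : Fin n → ℝ) : ∑ i, lift c y i = c + n := by
  rw [Fintype.sum_option]
  simp only [lift_none, lift_some]
  rw [sum_add_distrib]
  simp only [sum_const, nsmul_eq_mul, mul_one, card_univ, Fintype.card_fin]
  ring

theorem lift_le {c : ℤ} {p b : Finset (Fin n) → ℤ} {y : Fin n → ℝ}
    (hy : y ∈ Q p b) (W : Finset (Option (Fin n))) : ∑ i ∈ W, lift c y i ≤ F c p b W := by
  by_cases hW : none ∈ W
  · have h1 := sum_add_sum_compl W (lift c y)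
    rw [lift_univ] at h1
    have e1 : Wᶜ = (eraseNone W)ᶜ.map Function.Embedding.some := by
      ext x
      cases x with
      | none => simp [hW]
      | some i => simp
    rw [e1, sum_map_some, sum_congr rfl (fun i _ => lift_some c y i), sum_add_distrib] at h1
    have h2 := (hy (eraseNone W)ᶜ).1
    rw [F_none hW]
    have h4 : ((eraseNone W).card : ℝ) + ((eraseNone W)ᶜ.card : ℝ) = n := by
      have := card_add_card_compl (eraseNone W)
      rw [Fintype.card_fin] at this
      exact_mod_cast this
    simp only [sum_const, nsmul_eq_mul, mul_one] at h1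
    push_cast
    linarith
  · have e1 : W = (eraseNone W).map Function.Embedding.some := by
      ext x
      cases x with
      | none => simp [hW]
      | some i => simp
    rw [F_some hW]
    conv_lhs => rw [e1]
    rw [sum_map_some]
    simp only [lift]
    rw [sum_add_distrib]
    simp only [sum_const, nsmul_eq_mul, mul_one]
    have h2 := (hy (eraseNone W)).2
    push_cast
    linarith

/-- greedy vectors are vertices -/
theorem greedy_vertex {c : ℤ} {p b : Finset (Fin n) → ℤ} (h : Paired p b)
    (l : List (Option (Fin n))) (hl : l.Nodup) (hlu : ∀ a, a ∈ l) (v : Option (Fin n) → ℤ)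
    (hv : ∀ W, ∑ i ∈ W, v i ≤ F c p b W)
    (hp : ∀ l', l' <+: l → ∑ i ∈ l'.toFinset, v i = F c p b l'.toFinset) :
    (fun i => ((v (some i) - 1 : ℤ) : ℝ)) ∈ (Q p b).extremePoints ℝ := by
  have hlF : l.toFinset = univ := by ext x; simp [hlu x]
  have hu : ∑ i, v i = F c p b univ := by
    have := hp l (List.prefix_refl l)
    rwa [hlF] at this
  rw [mem_extremePoints_iff_left]
  refine ⟨mem_Q_of_base h v hv hu, ?_⟩
  intro y₁ hy₁ y₂ hy₂ hseg
  obtain ⟨s, t, hs, ht, hst, hy⟩ := hseg
  -- the lifts
  have hlift : ∀ i, s * lift c y₁ i + t * lift c y₂ i = (v i : ℝ) := by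
    have hyi : ∀ i, s * y₁ i + t * y₂ i = ((v (some i) - 1 : ℤ) : ℝ) := by
      intro i
      have := congrFun hy i
      simpa using this
    intro i
    cases i with
    | none =>
      simp only [lift]
      have e : s * (c - ∑ i, y₁ i) + t * (c - ∑ i, y₂ i) =
          (s + t) * c - ∑ i, (s * y₁ i + t * y₂ i) := by
        rw [sum_add_distrib, ← mul_sum, ← mul_sum]; ring
      rw [e, hst, sum_congr rfl (fun i _ => hyi i), ← Int.cast_sum, sum_sub_distrib]
      have h1 := hu
      rw [Fintype.sum_option, F_univ h] at h1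
      have h2 : (v none : ℝ) = c + n - ∑ i, (v (some i) : ℝ) := by
        have : (v none : ℤ) = c + n - ∑ i, v (some i) := by linarith
        rw [this]; push_cast; ring
      rw [h2]
      push_cast
      simp
      ring
    | some i =>
      simp only [lift]
      have := hyi i
      push_cast at this
      linarith
  have key : ∀ i ∈ l, lift c y₁ i = (v i : ℝ) := by
    apply eq_of_prefix (lift c y₁) (fun i => (v i : ℝ)) l hl
    intro l' hl'
    have k1 := lift_le (c := c) hy₁ l'.toFinset
    have k2 := lift_le (c := c) hy₂ l'.toFinset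
    have k3 : ∑ i ∈ l'.toFinset, (v i : ℝ) = (F c p b l'.toFinset : ℝ) := by
      have := hp l' hl'
      exact_mod_cast this
    have k4 : s * ∑ i ∈ l'.toFinset, lift c y₁ i + t * ∑ i ∈ l'.toFinset, lift c y₂ i =
        ∑ i ∈ l'.toFinset, (v i : ℝ) := by
      rw [mul_sum, mul_sum, ← sum_add_distrib]
      exact sum_congr rfl fun i _ => hlift i
    rw [k3] at k4 ⊢
    apply le_antisymm k1
    by_contra hcon
    push Not at hcon
    have : s * ∑ i ∈ l'.toFinset, lift c y₁ i < s * (F c p b l'.toFinset : ℝ) :=
      mul_lt_mul_of_pos_left hcon hs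
    have : t * ∑ i ∈ l'.toFinset, lift c y₂ i ≤ t * (F c p b l'.toFinset : ℝ) :=
      mul_le_mul_of_nonneg_left k2 ht.le
    have : s * (F c p b l'.toFinset : ℝ) + t * (F c p b l'.toFinset : ℝ) =
        (F c p b l'.toFinset : ℝ) := by rw [← add_mul, hst, one_mul]
    linarith
  funext i
  have := key (some i) (hlu _)
  simp only [lift] at this
  push_cast
  linarith

end Pool.Agent.GPM
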