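import Pool.Agent.GPM.Link

set_option autoImplicit false

/-!
Opposite vertices of integer g-polymatroids whose vertices have a constant number of zeros.
-/

open Finset

namespace Pool.Agent.GPM

variable {n : ℕ}

theorem mem_emod {x : ℤ} (h : x = 0 ∨ x = 1 ∨ x = 2) : x % 2 = if x = 1 then 1 else 0 := by
  rcases h with h | h | h <;> subst h <;> simp

theorem zeros_eq (v : Option (Fin n) → ℤ) :
    (zeros (fun i => ((v (some i) - 1 : ℤ) : ℝ)) : ℤ) =
      ∑ i : Fin n, if v (some i) = 1 then 1 else 0 := by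
  rw [sum_boole]
  unfold zeros
  rw [Set.ncard_eq_toFinset_card']
  congr 2
  ext i
  simp only [Set.mem_toFinset, Set.mem_ofPred_eq, mem_filter, mem_univ, true_and]
  rw [Int.cast_eq_zero]
  omega

/-- full greedy vectors -/
theorem greedy_full {c : ℤ} {p b : Finset (Fin n) → ℤ} (h : Paired p b)
    (hv : ∀ v ∈ (Q p b).extremePoints ℝ, ∀ i, v i = 0 ∨ v i = 1 ∨ v i = -1)
    (l : List (Option (Fin n))) (hl : l.Nodup) (hlu : ∀ a, a ∈ l) :
    ∃ v : Option (Fin n) → ℤ, (fun i => ((v (some i) - 1 : ℤ) : ℝ)) ∈ (Q p b).extremePoints ℝ ∧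
      (∀ i, v (some i) = 0 ∨ v (some i) = 1 ∨ v (some i) = 2) ∧
      ∑ i, v i = c + n ∧
      (∀ l', l' <+: l → ∑ i ∈ l'.toFinset, v i = F c p b l'.toFinset) ∧
      cnt (F c p b) ∅ l = ∑ i, v i % 2 := by
  obtain ⟨v, h1, h2, h3⟩ := greedy (F_sub (c := c) h) (F_empty h) l hl
  have hlF : l.toFinset = univ := by ext x; simp [hlu x]
  have hw := greedy_vertex h l hl hlu v (fun W => h1 W (by rw [hlF]; exact subset_univ _)) h2
  refine ⟨v, hw, ?_, ?_, h2, ?_⟩
  · intro i
    have := hv _ hw i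
    rcases this with h4 | h4 | h4
    · have : v (some i) - 1 = 0 := by exact_mod_cast h4
      omega
    · have : v (some i) - 1 = 1 := by exact_mod_cast h4
      omega
    · have : v (some i) - 1 = -1 := by exact_mod_cast h4
      omega
  · have := h2 l (List.prefix_refl l)
    rwa [hlF, F_univ h] at this
  · rwa [hlF] at h3

theorem const_of {c K : ℤ} {p b : Finset (Fin n) → ℤ} (h : Paired p b)
    (hv : ∀ v ∈ (Q p b).extremePoints ℝ, ∀ i, v i = 0 ∨ v i = 1 ∨ v i = -1)
    (hK : ∀ v ∈ (Q p b).extremePoints ℝ, (zeros v : ℤ) + (c - n + zeros v) % 2 = K) :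
    Const (F c p b) K := by
  intro l hl hlu
  obtain ⟨v, hw, hvi, hsum, -, hcnt⟩ := greedy_full (c := c) h hv l hl hlu
  have hz := hK _ hw
  rw [zeros_eq] at hz
  rw [hcnt, Fintype.sum_option]
  have e1 : ∑ i : Fin n, v (some i) % 2 = ∑ i : Fin n, if v (some i) = 1 then 1 else 0 :=
    sum_congr rfl fun i _ => mem_emod (hvi i)
  rw [e1, ← hz]
  have e2 : (∑ i : Fin n, v (some i)) % 2 =
      (∑ i : Fin n, if v (some i) = 1 then (1 : ℤ) else 0) % 2 := by
    rw [Finset.sum_int_mod, e1]
  rw [Fintype.sum_option] at hsum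
  omega

theorem inc_of {c : ℤ} {p b : Finset (Fin n) → ℤ} (h : Paired p b)
    (hv : ∀ v ∈ (Q p b).extremePoints ℝ, ∀ i, v i = 0 ∨ v i = 1 ∨ v i = -1)
    (i : Fin n) (A : Finset (Option (Fin n))) (hi : some i ∉ A) :
    0 ≤ F c p b (insert (some i) A) - F c p b A ∧
      F c p b (insert (some i) A) - F c p b A ≤ 2 := by
  have hnd : (A.toList ++ (some i :: (univ \ insert (some i) A).toList)).Nodup := by
    rw [List.nodup_append]
    refine ⟨nodup_toList _, ?_, ?_⟩
    · rw [List.nodup_cons]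
      refine ⟨?_, nodup_toList _⟩
      rw [mem_toList, mem_sdiff]
      intro hx
      exact hx.2 (mem_insert_self _ A)
    · intro x hx y hy hxy
      subst hxy
      rw [mem_toList] at hx
      rw [List.mem_cons, mem_toList, mem_sdiff] at hy
      rcases hy with hy | hy
      · subst hy; exact hi hx
      · exact hy.2 (mem_insert_of_mem hx)
  have hfull : ∀ x, x ∈ A.toList ++ (some i :: (univ \ insert (some i) A).toList) := by
    intro x
    rw [List.mem_append, List.mem_cons, mem_toList, mem_toList]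
    by_cases hx : x ∈ insert (some i) A
    · rcases mem_insert.1 hx with hx | hx
      · exact Or.inr (Or.inl hx)
      · exact Or.inl hx
    · exact Or.inr (Or.inr (mem_sdiff.2 ⟨mem_univ _, hx⟩))
  obtain ⟨v, -, hvi, -, hpre, -⟩ := greedy_full (c := c) h hv _ hnd hfull
  have h1 := hpre A.toList (List.prefix_append _ _)
  have h2 := hpre (A.toList ++ [some i]) (by
    rw [List.prefix_append_right_inj]
    exact ⟨_, rfl⟩)
  have e : (A.toList ++ [some i]).toFinset = insert (some i) A := by ext x; simp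
  rw [toList_toFinset] at h1
  rw [e, sum_insert hi, h1] at h2
  have := hvi i
  omega

theorem bound_of {p b : Finset (Fin n) → ℤ} (h : Paired p b)
    (hv : ∀ v ∈ (Q p b).extremePoints ℝ, ∀ i, v i = 0 ∨ v i = 1 ∨ v i = -1)
    {x : Fin n → ℝ} (hx : x ∈ Q p b) (i : Fin n) : -1 ≤ x i ∧ x i ≤ 1 := by
  have h1 := inc_of (c := 0) h hv i ∅ (notMem_empty _)
  have h2 := inc_of (c := 0) h hv i (univ.erase (some i)) (notMem_erase _ _)
  rw [insert_erase (mem_univ _), F_univ h] at h2
  rw [F_empty h, insert_empty_eq] at h1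
  have e1 : eraseNone ({some i} : Finset (Option (Fin n))) = {i} := by
    ext j; simp
  have e2 : eraseNone (univ.erase (some i) : Finset (Option (Fin n))) = {i}ᶜ := by
    ext j; simp
  rw [F_some (by simp), e1, card_singleton] at h1
  rw [F_none (by simp), e2, compl_compl] at h2
  have h4 : (({i}ᶜ : Finset (Fin n)).card : ℤ) + 1 = n := by
    have := card_add_card_compl ({i} : Finset (Fin n))
    rw [Fintype.card_fin, card_singleton] at this
    omega
  have h5 := hx {i}
  rw [sum_singleton] at h5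
  have h6 : b {i} ≤ 1 := by push_cast at h1; linarith [h1.2]
  have h7 : -1 ≤ p {i} := by linarith [h2.1]
  have h8 : (b {i} : ℝ) ≤ 1 := by exact_mod_cast h6
  have h9 : (-1 : ℝ) ≤ p {i} := by exact_mod_cast h7
  exact ⟨h9.trans h5.1, h5.2.trans h8⟩

theorem Q_compact {p b : Finset (Fin n) → ℤ}
    (hbd : ∀ x ∈ Q p b, ∀ i, -1 ≤ x i ∧ x i ≤ 1) : IsCompact (Q p b) := by
  apply Metric.isCompact_of_isClosed_isBounded
  · have : Q p b = ⋂ A : Finset (Fin n), {x : Fin n → ℝ | (p A : ℝ) ≤ ∑ i ∈ A, x i} ∩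
        {x | ∑ i ∈ A, x i ≤ (b A : ℝ)} := by
      ext x
      simp [Q]
    rw [this]
    refine isClosed_iInter fun A => IsClosed.inter ?_ ?_
    · exact isClosed_le continuous_const (by fun_prop)
    · exact isClosed_le (by fun_prop) continuous_const
  · rw [isBounded_iff_forall_norm_le]
    refine ⟨1, fun x hx => ?_⟩
    rw [pi_norm_le_iff_of_nonneg zero_le_one]
    intro i
    rw [Real.norm_eq_abs, abs_le]
    exact hbd x hx i

/-- a vertex in the face of `Q` given by the nonzero coordinates of `z`, maximising a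
functional -/
theorem face_vertex {p b : Finset (Fin n) → ℤ}
    (hbd : ∀ x ∈ Q p b, ∀ i, -1 ≤ x i ∧ x i ≤ 1) {z : Fin n → ℝ} (hz : z ∈ Q p b)
    (T : Finset (Fin n)) (hT : ∀ i, i ∉ T → z i = 1 ∨ z i = -1)
    (L : StrongDual ℝ (Fin n → ℝ)) :
    ∃ w ∈ (Q p b).extremePoints ℝ, (∀ i, i ∉ T → w i = z i) ∧ L z ≤ L w := by
  let G : Set (Fin n → ℝ) := {x | x ∈ Q p b ∧ ∀ i, i ∉ T → x i = z i}
  have hG : IsExtreme ℝ (Q p b) G := by
    constructor
    · intro x hx; exact hx.1
    · intro x₁ hx₁ x₂ hx₂ x hx hseg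
      refine ⟨hx₁, fun i hi => ?_⟩
      obtain ⟨s, t, hs, ht, hst, hxe⟩ := hseg
      have h1 : s * x₁ i + t * x₂ i = z i := by
        rw [← hx.2 i hi, ← hxe]; simp
      have b1 := hbd x₁ hx₁ i
      have b2 := hbd x₂ hx₂ i
      rcases hT i hi with h2 | h2
      · rw [h2] at h1 ⊢
        by_contra hne
        have h3 : x₁ i < 1 := lt_of_le_of_ne b1.2 hne
        nlinarith [mul_lt_mul_of_pos_left h3 hs, mul_le_mul_of_nonneg_left b2.2 ht.le]
      · rw [h2] at h1 ⊢
        by_contra hne
        have h3 : -1 < x₁ i := lt_of_le_of_ne b1.1 (Ne.symm hne)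
        nlinarith [mul_lt_mul_of_pos_left h3 hs, mul_le_mul_of_nonneg_left b2.1 ht.le]
  have hGc : IsCompact G := by
    have : G = Q p b ∩ ⋂ i, ⋂ (_ : i ∉ T), {x : Fin n → ℝ | x i = z i} := by
      ext x
      simp [G]
    rw [this]
    apply (Q_compact hbd).inter_right
    exact isClosed_iInter fun i => isClosed_iInter fun _ =>
      isClosed_eq (continuous_apply i) continuous_const
  have hGn : G.Nonempty := ⟨z, hz, fun _ _ => rfl⟩
  have hE : IsExposed ℝ G (L.toExposed G) := ContinuousLinearMap.toExposed.isExposed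
  have hEn : (L.toExposed G).Nonempty := by
    obtain ⟨w, hw, hmax⟩ := hGc.exists_isMaxOn hGn L.continuous.continuousOn
    exact ⟨w, hw, fun y hy => hmax hy⟩
  obtain ⟨w, hw⟩ := (hE.isCompact hGc).extremePoints_nonempty hEn
  have hw' : w ∈ L.toExposed G := extremePoints_subset hw
  refine ⟨w, (hG.trans hE.isExtreme).extremePoints_subset_extremePoints hw, hw'.1.2, ?_⟩
  exact hw'.2 z ⟨hz, fun _ _ => rfl⟩

/-- The symmetric points. -/
theorem symm_point {c K : ℤ} {p b : Finset (Fin n) → ℤ} (h : Paired p b)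
    (h0 : (0 : Fin n → ℝ) ∈ Q p b)
    (hv : ∀ v ∈ (Q p b).extremePoints ℝ, ∀ i, v i = 0 ∨ v i = 1 ∨ v i = -1)
    (hK : ∀ v ∈ (Q p b).extremePoints ℝ, (zeros v : ℤ) + (c - n + zeros v) % 2 = K) :
    ∃ (z : Fin n → ℝ) (T : Finset (Fin n)), z ∈ Q p b ∧ -z ∈ Q p b ∧ (T.card : ℤ) ≤ K ∧
      (∀ i ∈ T, z i = 0) ∧ (∀ i, i ∉ T → z i = 1 ∨ z i = -1) := by
  classical
  let m : Option (Fin n) → ℤ := fun o => o.elim c (fun _ => 1)
  have hml : ∀ o, (m o : ℝ) = lift c 0 o := by
    intro o
    cases o with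
    | none => rw [lift_none]; simp [m]
    | some i => rw [lift_some]; simp [m]
  obtain ⟨x, Y, hY0, hYs, hxY, hA, hAu, hB⟩ := core (F_sub (c := c) h) (F_empty h)
    (const_of h hv hK) m
    (by
      intro A
      have := lift_le (c := c) h0 A
      rw [sum_congr rfl (fun o _ => (hml o).symm)] at this
      exact_mod_cast this)
    (by
      have := lift_univ c (0 : Fin n → ℝ)
      rw [sum_congr rfl (fun o _ => (hml o).symm)] at this
      rw [F_univ h]
      exact_mod_cast this)
    (univ.map Function.Embedding.some)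
    (by
      intro i hi
      rw [mem_map] at hi
      obtain ⟨j, -, rfl⟩ := hi
      intro A hA
      exact inc_of h hv j A hA)
  have hxY' : ∀ i : Fin n, (x (some i) = 0 ∧ Y (some i) = 0) ∨
      (x (some i) = 1 ∧ (Y (some i) = 0 ∨ Y (some i) = 1)) := fun i =>
    hxY (some i) (mem_map.2 ⟨i, mem_univ _, rfl⟩)
  refine ⟨fun i => ((2 * x (some i) - Y (some i) - 1 : ℤ) : ℝ),
    univ.filter (fun i => Y (some i) = 1), ?_, ?_, ?_, ?_, ?_⟩
  · exact mem_Q_of_base h (fun o => 2 * x o - Y o) hA hAu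
  · have hBu : ∑ i, (2 * m i - (2 * x i - Y i)) = F c p b univ := by
      have h1 : ∑ i, m i = F c p b univ := by
        have := lift_univ c (0 : Fin n → ℝ)
        rw [sum_congr rfl (fun o _ => (hml o).symm)] at this
        rw [F_univ h]
        exact_mod_cast this
      rw [sum_sub_distrib, hAu, ← mul_sum, h1]
      ring
    have := mem_Q_of_base h (fun o => 2 * m o - (2 * x o - Y o)) hB hBu
    convert this using 1
    funext i
    simp only [Pi.neg_apply, m, Option.elim]
    push_cast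
    ring
  · have h1 : ((univ.filter (fun i : Fin n => Y (some i) = 1)).card : ℤ) ≤
        ∑ i : Fin n, Y (some i) := by
      rw [card_filter]
      push_cast
      apply sum_le_sum
      intro i _
      rcases hxY' i with h2 | h2
      · rw [h2.2]; simp
      · rcases h2.2 with h3 | h3 <;> rw [h3] <;> simp
    rw [Fintype.sum_option] at hYs
    have := hY0 none
    linarith
  · intro i hi
    rw [mem_filter] at hi
    have h1 := hi.2
    rcases hxY' i with h2 | h2
    · rw [h2.2] at h1; simp at h1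
    · show ((2 * x (some i) - Y (some i) - 1 : ℤ) : ℝ) = 0
      rw [h2.1, h1]; norm_num
  · intro i hi
    rw [mem_filter, not_and] at hi
    have h1 := hi (mem_univ _)
    rcases hxY' i with h2 | h2
    · right
      show ((2 * x (some i) - Y (some i) - 1 : ℤ) : ℝ) = -1
      rw [h2.1, h2.2]; norm_num
    · left
      have h3 : Y (some i) = 0 := h2.2.resolve_right h1
      show ((2 * x (some i) - Y (some i) - 1 : ℤ) : ℝ) = 1
      rw [h2.1, h3]; norm_num

/-- The vertices of `Q` have at most one zero coordinate. -/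
theorem main_one {p b : Finset (Fin n) → ℤ} (h : Paired p b)
    (h0 : (0 : Fin n → ℝ) ∈ Q p b)
    (hv : ∀ v ∈ (Q p b).extremePoints ℝ, ∀ i, v i = 0 ∨ v i = 1 ∨ v i = -1)
    (h1 : ∀ v ∈ (Q p b).extremePoints ℝ, zeros v ≤ 1) :
    ∃ v ∈ (Q p b).extremePoints ℝ, -v ∈ Q p b := by
  obtain ⟨z, T, hz, hz', hT, hT0, hT1⟩ := symm_point (c := n + 1) (K := 1) h h0 hv (by
    intro v hv
    have := h1 v hv
    have : zeros v = 0 ∨ zeros v = 1 := by omega
    rcases this with h2 | h2 <;> rw [h2] <;> push_cast <;> omega)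
  have hbd : ∀ x ∈ Q p b, ∀ i, -1 ≤ x i ∧ x i ≤ 1 := fun x hx i => bound_of h hv hx i
  have hT' : T.card ≤ 1 := by exact_mod_cast hT
  rcases Nat.le_one_iff_eq_zero_or_eq_one.1 hT' with hc | hc
  · rw [card_eq_zero] at hc
    subst hc
    obtain ⟨w, hw, hwz, -⟩ := face_vertex hbd hz ∅ hT1 0
    have : w = z := funext fun i => hwz i (notMem_empty i)
    subst this
    exact ⟨w, hw, hz'⟩
  · rw [card_eq_one] at hc
    obtain ⟨y, rfl⟩ := hc
    have hzy : z y = 0 := hT0 y (mem_singleton_self y)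
    obtain ⟨w₁, hw₁, hwz₁, hL₁⟩ := face_vertex hbd hz {y} hT1
      (ContinuousLinearMap.proj (R := ℝ) (φ := fun _ : Fin n => ℝ) y)
    obtain ⟨w₂, hw₂, hwz₂, hL₂⟩ := face_vertex hbd hz' {y} (fun i hi => by
      rcases hT1 i hi with h2 | h2
      · right; rw [Pi.neg_apply, h2]
      · left; rw [Pi.neg_apply, h2]; norm_num)
      (-(ContinuousLinearMap.proj (R := ℝ) (φ := fun _ : Fin n => ℝ) y))
    have e1 : 0 ≤ w₁ y := by
      have : z y ≤ w₁ y := hL₁
      linarith
    have e2 : w₂ y ≤ 0 := by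
      have : -(-z) y ≤ -w₂ y := hL₂
      rw [Pi.neg_apply, hzy] at this
      linarith
    by_cases c1 : w₁ y = 0
    · have : w₁ = z := by
        funext i
        by_cases hi : i = y
        · subst hi; rw [c1, hzy]
        · exact hwz₁ i (by rwa [mem_singleton])
      subst this
      exact ⟨w₁, hw₁, hz'⟩
    · by_cases c2 : w₂ y = 0
      · have : w₂ = -z := by
          funext i
          by_cases hi : i = y
          · subst hi; rw [c2, Pi.neg_apply, hzy, neg_zero]
          · exact hwz₂ i (by rwa [mem_singleton])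
        subst this
        exact ⟨-z, hw₂, by rwa [neg_neg]⟩
      · have d1 : w₁ y = 1 := by
          rcases hv w₁ hw₁ y with h2 | h2 | h2
          · exact absurd h2 c1
          · exact h2
          · linarith
        have d2 : w₂ y = -1 := by
          rcases hv w₂ hw₂ y with h2 | h2 | h2
          · exact absurd h2 c2
          · linarith
          · exact h2
        have : w₂ = -w₁ := by
          funext i
          by_cases hi : i = y
          · subst hi; rw [Pi.neg_apply, d1, d2]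
          · have hi' : i ∉ ({y} : Finset (Fin n)) := by rwa [mem_singleton]
            rw [Pi.neg_apply, hwz₁ i hi', hwz₂ i hi', Pi.neg_apply]
        exact ⟨w₁, hw₁, this ▸ extremePoints_subset hw₂⟩

/-- All vertices of `Q` have the same number of zero coordinates. -/
theorem main_const {p b : Finset (Fin n) → ℤ} (h : Paired p b)
    (h0 : (0 : Fin n → ℝ) ∈ Q p b)
    (hv : ∀ v ∈ (Q p b).extremePoints ℝ, ∀ i, v i = 0 ∨ v i = 1 ∨ v i = -1)
    (k : ℕ) (hk : ∀ v ∈ (Q p b).extremePoints ℝ, zeros v = k) :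
    ∃ v ∈ (Q p b).extremePoints ℝ, -v ∈ (Q p b).extremePoints ℝ := by
  obtain ⟨z, T, hz, hz', hT, hT0, hT1⟩ := symm_point (c := n + k) (K := k) h h0 hv (by
    intro v hv
    rw [hk v hv]
    omega)
  have hbd : ∀ x ∈ Q p b, ∀ i, -1 ≤ x i ∧ x i ≤ 1 := fun x hx i => bound_of h hv hx i
  have hT' : T.card ≤ k := by exact_mod_cast hT
  have key : ∀ y : Fin n → ℝ, y ∈ Q p b → (∀ i ∈ T, y i = 0) →
      (∀ i, i ∉ T → y i = 1 ∨ y i = -1) → y ∈ (Q p b).extremePoints ℝ := by
    intro y hy hy0 hy1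
    obtain ⟨w, hw, hwy, -⟩ := face_vertex hbd hy T hy1 0
    have hsub : {i | w i = 0} ⊆ (T : Set (Fin n)) := by
      intro i hi
      by_contra hiT
      have h2 := hwy i hiT
      rw [Set.mem_ofPred_eq] at hi
      rw [hi] at h2
      rcases hy1 i hiT with h3 | h3 <;> rw [h3] at h2 <;> norm_num at h2
    have hcard := hk w hw
    have heq : {i | w i = 0} = (T : Set (Fin n)) := by
      apply Set.eq_of_subset_of_ncard_le hsub
      rw [Set.ncard_coe_finset]
      unfold zeros at hcard
      omega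
    have : w = y := by
      funext i
      by_cases hi : i ∈ T
      · have h2 : i ∈ {i | w i = 0} := by rw [heq]; exact hi
        rw [hy0 i hi]
        exact h2
      · exact hwy i hi
    rwa [← this]
  refine ⟨z, key z hz hT0 hT1, key (-z) hz' ?_ ?_⟩
  · intro i hi
    rw [Pi.neg_apply, hT0 i hi, neg_zero]
  · intro i hi
    rcases hT1 i hi with h2 | h2
    · right; rw [Pi.neg_apply, h2]
    · left; rw [Pi.neg_apply, h2]; norm_num

end Pool.Agent.GPM
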