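import Mathlib

set_option autoImplicit false

/-!
The discrete sandwich theorem with a nonnegativity constraint.
-/

open Finset

namespace Pool.Agent.GPM

variable {α : Type*} [DecidableEq α]

/-- `b` is submodular on the subsets of `s` -/
def SubOn (s : Finset α) (b : Finset α → ℤ) : Prop :=
  ∀ X, X ⊆ s → ∀ Y, Y ⊆ s → b (X ∩ Y) + b (X ∪ Y) ≤ b X + b Y

/-- `p` is supermodular on the subsets of `s` -/
def SupOn (s : Finset α) (p : Finset α → ℤ) : Prop :=
  ∀ X, X ⊆ s → ∀ Y, Y ⊆ s → p X + p Y ≤ p (X ∩ Y) + p (X ∪ Y)

/-- If `p` is supermodular, `b` is submodular and `p A ≤ b T` whenever `A ⊆ T` and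
`T \ A ⊆ N`, then there is an integer vector between `p` and `b` which is nonnegative on `N`. -/
theorem sandwich (N s : Finset α) : ∀ p b : Finset α → ℤ, p ∅ = 0 → b ∅ = 0 →
    SupOn s p → SubOn s b → (∀ T, T ⊆ s → ∀ A, A ⊆ T → T \ A ⊆ N → p A ≤ b T) →
    ∃ x : α → ℤ, (∀ A, A ⊆ s → p A ≤ ∑ i ∈ A, x i ∧ ∑ i ∈ A, x i ≤ b A) ∧
      ∀ i ∈ s, i ∈ N → 0 ≤ x i := by
  induction s using Finset.induction_on with
  | empty =>
    intro p b hp hb _ _ _
    refine ⟨fun _ => 0, ?_, ?_⟩
    · intro A hA
      rw [subset_empty] at hA
      subst hA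
      simp [hp, hb]
    · intro i hi
      simp at hi
  | insert e s he ih =>
    intro p b hp0 hb0 hp hb hpb
    have hss : s ⊆ insert e s := subset_insert e s
    have hins : ∀ {X : Finset α}, X ⊆ s → insert e X ⊆ insert e s := fun h =>
      insert_subset_insert e h
    -- the set of the lower bounds for the new coordinate
    let L : Set ℤ := {l | (∃ T, T ⊆ s ∧ ∃ A, A ⊆ T ∧ T \ A ⊆ N ∧ l = p (insert e A) - b T) ∨
      (e ∈ N ∧ l = 0)}
    have hne : L.Nonempty := ⟨p (insert e ∅) - b ∅, Or.inl ⟨∅, empty_subset _, ∅, subset_rfl,
      by simp, rfl⟩⟩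
    have hLU : ∀ l ∈ L, ∀ T, T ⊆ s → ∀ A, A ⊆ T → T \ A ⊆ N → l ≤ b (insert e T) - p A := by
      rintro l hl T hT A hA hTA
      rcases hl with ⟨T', hT', A', hA', hTA', rfl⟩ | ⟨heN, rfl⟩
      · have hAs := hA.trans hT
        have hAs' := hA'.trans hT'
        have h1 := hp (insert e A') (hins hAs') A (hAs.trans hss)
        have h2 := hb T' (hT'.trans hss) (insert e T) (hins hT)
        have e1 : insert e A' ∩ A = A' ∩ A := by
          rw [insert_inter_of_notMem (fun h => he (hAs h))]
        have e2 : insert e A' ∪ A = insert e (A' ∪ A) := insert_union e A' A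
        have e3 : T' ∩ insert e T = T' ∩ T := by
          rw [inter_insert_of_notMem (fun h => he (hT' h))]
        have e4 : T' ∪ insert e T = insert e (T' ∪ T) := union_insert e T' T
        rw [e1, e2] at h1
        rw [e3, e4] at h2
        have h3 : p (A' ∩ A) ≤ b (T' ∩ T) := by
          apply hpb _ ((inter_subset_left.trans hT').trans hss) _ (inter_subset_inter hA' hA)
          intro x hx
          simp only [mem_sdiff, mem_inter, not_and_or] at hx
          rcases hx.2 with h | h
          · exact hTA' (mem_sdiff.2 ⟨hx.1.1, h⟩)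
          · exact hTA (mem_sdiff.2 ⟨hx.1.2, h⟩)
        have h4 : p (insert e (A' ∪ A)) ≤ b (insert e (T' ∪ T)) := by
          apply hpb _ (hins (union_subset hT' hT)) _
            (insert_subset_insert e (union_subset_union hA' hA))
          intro x hx
          simp only [mem_sdiff, mem_insert, mem_union, not_or] at hx
          rcases hx.1 with h | h | h
          · exact absurd h hx.2.1
          · exact hTA' (mem_sdiff.2 ⟨h, hx.2.2.1⟩)
          · exact hTA (mem_sdiff.2 ⟨h, hx.2.2.2⟩)
        linarith
      · have h3 : p A ≤ b (insert e T) := by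
          apply hpb _ (hins hT) _ (hA.trans (subset_insert e T))
          intro x hx
          simp only [mem_sdiff, mem_insert] at hx
          rcases hx.1 with h | h
          · rw [h]; exact heN
          · exact hTA (mem_sdiff.2 ⟨h, hx.2⟩)
        linarith
    have hbdd : BddAbove L := ⟨b (insert e ∅) - p ∅, fun l hl => hLU l hl ∅ (empty_subset _) ∅
      subset_rfl (by simp)⟩
    obtain ⟨t, ht⟩ : ∃ t : ℤ, t = sSup L := ⟨_, rfl⟩
    have hlow : ∀ T, T ⊆ s → ∀ A, A ⊆ T → T \ A ⊆ N → p (insert e A) - b T ≤ t := by
      intro T hT A hA hTA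
      rw [ht]
      exact le_csSup hbdd (Or.inl ⟨T, hT, A, hA, hTA, rfl⟩)
    have hlow0 : e ∈ N → 0 ≤ t := by
      intro heN
      rw [ht]
      exact le_csSup hbdd (Or.inr ⟨heN, rfl⟩)
    have hup : ∀ T, T ⊆ s → ∀ A, A ⊆ T → T \ A ⊆ N → t ≤ b (insert e T) - p A := by
      intro T hT A hA hTA
      rw [ht]
      exact csSup_le hne fun l hl => hLU l hl T hT A hA hTA
    have ht1 := hlow ∅ (empty_subset _) ∅ subset_rfl (by simp)
    have ht2 := hup ∅ (empty_subset _) ∅ subset_rfl (by simp)
    rw [hb0] at ht1
    rw [hp0] at ht2
    obtain ⟨x, hx, hx0⟩ := ih (fun A => max (p A) (p (insert e A) - t))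
      (fun A => min (b A) (b (insert e A) - t))
      (by simp only [hp0]; rw [max_eq_left]; linarith)
      (by simp only [hb0]; rw [min_eq_left]; linarith)
      (by
        intro X hX Y hY
        have k1 := hp X (hX.trans hss) Y (hY.trans hss)
        have k2 := hp (insert e X) (hins hX) (insert e Y) (hins hY)
        have k3 := hp X (hX.trans hss) (insert e Y) (hins hY)
        have k4 := hp (insert e X) (hins hX) Y (hY.trans hss)
        rw [← insert_inter_distrib, ← insert_union_distrib] at k2
        rw [inter_insert_of_notMem (fun h => he (hX h)), union_insert] at k3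
        rw [insert_inter_of_notMem (fun h => he (hY h)), insert_union] at k4
        simp only
        have m1 := le_max_left (p (X ∩ Y)) (p (insert e (X ∩ Y)) - t)
        have m2 := le_max_right (p (X ∩ Y)) (p (insert e (X ∩ Y)) - t)
        have m3 := le_max_left (p (X ∪ Y)) (p (insert e (X ∪ Y)) - t)
        have m4 := le_max_right (p (X ∪ Y)) (p (insert e (X ∪ Y)) - t)
        rcases max_choice (p X) (p (insert e X) - t) with h1 | h1 <;>
          rcases max_choice (p Y) (p (insert e Y) - t) with h2 | h2 <;> rw [h1, h2] <;> linarith)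
      (by
        intro X hX Y hY
        have k1 := hb X (hX.trans hss) Y (hY.trans hss)
        have k2 := hb (insert e X) (hins hX) (insert e Y) (hins hY)
        have k3 := hb X (hX.trans hss) (insert e Y) (hins hY)
        have k4 := hb (insert e X) (hins hX) Y (hY.trans hss)
        rw [← insert_inter_distrib, ← insert_union_distrib] at k2
        rw [inter_insert_of_notMem (fun h => he (hX h)), union_insert] at k3
        rw [insert_inter_of_notMem (fun h => he (hY h)), insert_union] at k4
        simp only
        have m1 := min_le_left (b (X ∩ Y)) (b (insert e (X ∩ Y)) - t)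
        have m2 := min_le_right (b (X ∩ Y)) (b (insert e (X ∩ Y)) - t)
        have m3 := min_le_left (b (X ∪ Y)) (b (insert e (X ∪ Y)) - t)
        have m4 := min_le_right (b (X ∪ Y)) (b (insert e (X ∪ Y)) - t)
        rcases min_choice (b X) (b (insert e X) - t) with h1 | h1 <;>
          rcases min_choice (b Y) (b (insert e Y) - t) with h2 | h2 <;> rw [h1, h2] <;> linarith)
      (by
        intro T hT A hA hTA
        apply max_le <;> apply le_min
        · exact hpb T (hT.trans hss) A hA hTA
        · linarith [hup T hT A hA hTA]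
        · linarith [hlow T hT A hA hTA]
        · have : p (insert e A) ≤ b (insert e T) := by
            apply hpb _ (hins hT) _ (insert_subset_insert e hA)
            intro x hx
            simp only [mem_sdiff, mem_insert, not_or] at hx
            rcases hx.1 with h | h
            · exact absurd h hx.2.1
            · exact hTA (mem_sdiff.2 ⟨h, hx.2.2⟩)
          linarith)
    refine ⟨Function.update x e t, ?_, ?_⟩
    · intro A hA
      by_cases heA : e ∈ A
      · have hA' : A.erase e ⊆ s := fun y hy =>
          (mem_insert.1 (hA (mem_of_mem_erase hy))).resolve_left (ne_of_mem_erase hy)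
        have hsum : ∑ i ∈ A, Function.update x e t i = t + ∑ i ∈ A.erase e, x i := by
          rw [← insert_erase heA, sum_insert (notMem_erase e A), Function.update_self]
          congr 1
          rw [erase_insert (notMem_erase e A)]
          exact sum_congr rfl fun i hi => Function.update_of_ne (ne_of_mem_erase hi) _ _
        have h1 := hx _ hA'
        simp only [insert_erase heA] at h1
        rw [hsum]
        have h2 := (le_max_right _ _).trans h1.1
        have h3 := h1.2.trans (min_le_right _ _)
        constructor <;> linarith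
      · have hA' : A ⊆ s := fun y hy =>
          (mem_insert.1 (hA hy)).resolve_left (fun h => heA (h ▸ hy))
        have hsum : ∑ i ∈ A, Function.update x e t i = ∑ i ∈ A, x i :=
          sum_congr rfl fun i hi => Function.update_of_ne (fun (h : i = e) => heA (h ▸ hi)) _ _
        rw [hsum]
        have h1 := hx _ hA'
        exact ⟨(le_max_left _ _).trans h1.1, h1.2.trans (min_le_left _ _)⟩
    · intro i hi hiN
      by_cases hie : i = e
      · subst hie
        rw [Function.update_self]
        exact hlow0 hiN
      · rw [Function.update_of_ne hie]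
        exact hx0 i ((mem_insert.1 hi).resolve_left hie) hiN

end Pool.Agent.GPM
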